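import Mathlib

open Finset Filter Topology

namespace Pool.Agent.Results.MP_d49c4f_nt.AlmostAll

/-- `D n` is the set of nonempty initial sums of the increasing sequence of the divisors of `n`
that exceed `1`: for each divisor `d > 1` of `n`, the sum of all divisors `e` of `n` with
`1 < e ≤ d`.  In particular `D 0 = D 1 = ∅`. -/
def D (n : ℕ) : Set ℕ :=
  {N | ∃ d ∈ n.divisors, 1 < d ∧ N = ∑ e ∈ n.divisors with 1 < e ∧ e ≤ d, e}

/-- `N` is representable if it lies in `D n` for some `n`. -/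
def Representable (N : ℕ) : Prop := ∃ n, N ∈ D n

/-- The least `n` with `N ∈ D n` (for representable `N`). -/
noncomputable def f (N : ℕ) : ℕ := sInf {n | N ∈ D n}

/-- The set `E` of natural numbers has natural density zero. -/
def DensityZero (E : Set ℕ) : Prop :=
  Tendsto (fun x : ℕ => ((E ∩ Set.Icc 1 x).ncard : ℝ) / x) atTop (𝓝 0)

/-! ### Sanity checks for the definition of `D` -/

theorem D_zero : D 0 = ∅ := by
  ext N; simp [D]

theorem D_one : D 1 = ∅ := by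
  ext N; simp [D]

theorem D_four : D 4 = {2, 6} := by
  have h : (4 : ℕ).divisors = {1, 2, 4} := by decide
  ext N
  simp only [D, h, Set.mem_ofPred_eq, Set.mem_insert_iff, Set.mem_singleton_iff]
  constructor
  · rintro ⟨d, hd, hd1, rfl⟩
    simp only [Finset.mem_insert, Finset.mem_singleton] at hd
    rcases hd with rfl | rfl | rfl
    · omega
    · left; decide
    · right; decide
  · rintro (rfl | rfl)
    · exact ⟨2, by simp, by norm_num, by decide⟩
    · exact ⟨4, by simp, by norm_num, by decide⟩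

theorem D_twelve : D 12 = {2, 5, 9, 15, 27} := by
  have h : (12 : ℕ).divisors = {1, 2, 3, 4, 6, 12} := by decide
  ext N
  simp only [D, h, Set.mem_ofPred_eq, Set.mem_insert_iff, Set.mem_singleton_iff]
  constructor
  · rintro ⟨d, hd, hd1, rfl⟩
    simp only [Finset.mem_insert, Finset.mem_singleton] at hd
    rcases hd with rfl | rfl | rfl | rfl | rfl | rfl
    · omega
    · left; decide
    · right; left; decide
    · right; right; left; decide
    · right; right; right; left; decide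
    · right; right; right; right; decide
  · rintro (rfl | rfl | rfl | rfl | rfl)
    · exact ⟨2, by simp, by norm_num, by decide⟩
    · exact ⟨3, by simp, by norm_num, by decide⟩
    · exact ⟨4, by simp, by norm_num, by decide⟩
    · exact ⟨6, by simp, by norm_num, by decide⟩
    · exact ⟨12, by simp, by norm_num, by decide⟩

/-! ### A convergent double sum -/

theorem summable_w : Summable (fun a : ℕ => 1 / ((a : ℝ) * √(a : ℝ))) := by
  have h2 := (Real.summable_one_div_nat_rpow (p := 3 / 2)).2 (by norm_num)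
  refine h2.congr ?_
  intro a
  rcases Nat.eq_zero_or_pos a with h0 | h0
  · subst h0; simp
  · have ha : (0 : ℝ) < a := by exact_mod_cast h0
    have : (a : ℝ) ^ ((3 : ℝ) / 2) = a * √a := by
      rw [show (3 : ℝ) / 2 = 1 + 1 / 2 by norm_num, Real.rpow_add ha, Real.rpow_one,
        Real.sqrt_eq_rpow]
    rw [this]

theorem summable_z : Summable (fun a : ℕ => 1 / ((a : ℝ) ^ 2)) :=
  Real.summable_one_div_nat_pow.2 (by norm_num)

noncomputable def W : ℝ := ∑' a : ℕ, 1 / ((a : ℝ) * √(a : ℝ))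

noncomputable def Z : ℝ := ∑' a : ℕ, 1 / ((a : ℝ) ^ 2)

theorem W_nonneg : 0 ≤ W := tsum_nonneg fun _ => by positivity

theorem Z_nonneg : 0 ≤ Z := tsum_nonneg fun _ => by positivity

theorem key_sum (y : ℕ) :
    ∑ p ∈ Ioc 0 y ×ˢ Ioc 0 y,
      (Nat.gcd p.1 p.2 : ℝ) / (((p.1 : ℝ) * √p.1) * ((p.2 : ℝ) * √p.2)) ≤ Z * (W * W) := by
  classical
  set G : ℕ × ℕ × ℕ → ℝ := fun t =>
    1 / ((t.1 : ℝ) ^ 2) * (1 / ((t.2.1 : ℝ) * √t.2.1) * (1 / ((t.2.2 : ℝ) * √t.2.2))) with hG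
  set φ : ℕ × ℕ → ℕ × ℕ × ℕ := fun p =>
    (Nat.gcd p.1 p.2, p.1 / Nat.gcd p.1 p.2, p.2 / Nat.gcd p.1 p.2) with hφ
  have h1 : ∀ p ∈ Ioc 0 y ×ˢ Ioc 0 y,
      (Nat.gcd p.1 p.2 : ℝ) / (((p.1 : ℝ) * √p.1) * ((p.2 : ℝ) * √p.2)) = G (φ p) := by
    rintro ⟨a, b⟩ hp
    simp only [mem_product, mem_Ioc] at hp
    obtain ⟨⟨ha0, hay⟩, ⟨hb0, hby⟩⟩ := hp
    have hg : 0 < Nat.gcd a b := Nat.gcd_pos_of_pos_left b ha0
    obtain ⟨u, hu⟩ := Nat.gcd_dvd_left a b
    obtain ⟨v, hv⟩ := Nat.gcd_dvd_right a b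
    set g := Nat.gcd a b with hgdef
    have hu0 : 0 < u := by
      rcases Nat.eq_zero_or_pos u with h | h
      · subst h; omega
      · exact h
    have hv0 : 0 < v := by
      rcases Nat.eq_zero_or_pos v with h | h
      · subst h; omega
      · exact h
    have hau : a / g = u := by
      conv_lhs => rw [hu]
      exact Nat.mul_div_cancel_left u hg
    have hbv : b / g = v := by
      conv_lhs => rw [hv]
      exact Nat.mul_div_cancel_left v hg
    have hgR : (0 : ℝ) < g := by exact_mod_cast hg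
    have huR : (0 : ℝ) < u := by exact_mod_cast hu0
    have hvR : (0 : ℝ) < v := by exact_mod_cast hv0
    have haR : (a : ℝ) = g * u := by exact_mod_cast hu
    have hbR : (b : ℝ) = g * v := by exact_mod_cast hv
    simp only [hG, hφ]
    rw [← hgdef, hau, hbv, haR, hbR, Real.sqrt_mul hgR.le, Real.sqrt_mul hgR.le]
    have hsg : √(g : ℝ) * √(g : ℝ) = g := Real.mul_self_sqrt hgR.le
    have hsg0 : 0 < √(g : ℝ) := Real.sqrt_pos.2 hgR
    have hsu0 : 0 < √(u : ℝ) := Real.sqrt_pos.2 huR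
    have hsv0 : 0 < √(v : ℝ) := Real.sqrt_pos.2 hvR
    have e1 : (g : ℝ) * u * (√(g : ℝ) * √(u : ℝ)) * (g * v * (√(g : ℝ) * √(v : ℝ))) =
        g ^ 2 * (√(g : ℝ) * √(g : ℝ)) * ((u * √(u : ℝ)) * (v * √(v : ℝ))) := by ring
    rw [e1, hsg]
    field_simp
  have h2 : Set.InjOn φ ((Ioc 0 y ×ˢ Ioc 0 y : Finset (ℕ × ℕ)) : Set (ℕ × ℕ)) := by
    rintro ⟨a, b⟩ _ ⟨a', b'⟩ _ h
    simp only [hφ, Prod.mk.injEq] at h
    obtain ⟨h1, h2, h3⟩ := h
    have ea : a = Nat.gcd a b * (a / Nat.gcd a b) := (Nat.mul_div_cancel' (Nat.gcd_dvd_left a b)).symm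
    have eb : b = Nat.gcd a b * (b / Nat.gcd a b) := (Nat.mul_div_cancel' (Nat.gcd_dvd_right a b)).symm
    have ea' : a' = Nat.gcd a' b' * (a' / Nat.gcd a' b') :=
      (Nat.mul_div_cancel' (Nat.gcd_dvd_left a' b')).symm
    have eb' : b' = Nat.gcd a' b' * (b' / Nat.gcd a' b') :=
      (Nat.mul_div_cancel' (Nat.gcd_dvd_right a' b')).symm
    have haa : a = a' := by rw [ea, ea', h2, h1]
    have hbb : b = b' := by rw [eb, eb', h3, h1]
    rw [haa, hbb]
  rw [Finset.sum_congr rfl h1, ← Finset.sum_image (f := G) h2]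
  have h3 : (Ioc 0 y ×ˢ Ioc 0 y).image φ ⊆ Ioc 0 y ×ˢ (Ioc 0 y ×ˢ Ioc 0 y) := by
    intro t ht
    obtain ⟨⟨a, b⟩, hp, rfl⟩ := Finset.mem_image.1 ht
    simp only [mem_product, mem_Ioc] at hp
    obtain ⟨⟨ha0, hay⟩, ⟨hb0, hby⟩⟩ := hp
    have hg : 0 < Nat.gcd a b := Nat.gcd_pos_of_pos_left b ha0
    simp only [hφ, mem_product, mem_Ioc]
    refine ⟨⟨hg, (Nat.gcd_le_left b ha0).trans hay⟩, ⟨?_, ?_⟩, ⟨?_, ?_⟩⟩
    · exact Nat.div_pos (Nat.gcd_le_left b ha0) hg
    · exact (Nat.div_le_self _ _).trans hay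
    · exact Nat.div_pos (Nat.gcd_le_right a hb0) hg
    · exact (Nat.div_le_self _ _).trans hby
  have hGnn : ∀ t, 0 ≤ G t := fun t => by simp only [hG]; positivity
  refine (Finset.sum_le_sum_of_subset_of_nonneg h3 fun t _ _ => hGnn t).trans ?_
  have h4 : ∑ t ∈ Ioc 0 y ×ˢ (Ioc 0 y ×ˢ Ioc 0 y), G t =
      (∑ g ∈ Ioc 0 y, 1 / ((g : ℝ) ^ 2)) *
        ((∑ u ∈ Ioc 0 y, 1 / ((u : ℝ) * √u)) * (∑ v ∈ Ioc 0 y, 1 / ((v : ℝ) * √v))) := by
    rw [Finset.sum_mul_sum (Ioc 0 y) (Ioc 0 y), ← Finset.sum_product', Finset.sum_mul_sum,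
      ← Finset.sum_product']
  rw [h4]
  have hz : ∑ g ∈ Ioc 0 y, 1 / ((g : ℝ) ^ 2) ≤ Z :=
    summable_z.sum_le_tsum _ (fun _ _ => by positivity)
  have hw : ∑ u ∈ Ioc 0 y, 1 / ((u : ℝ) * √u) ≤ W :=
    summable_w.sum_le_tsum _ (fun _ _ => by positivity)
  have hw0 : 0 ≤ ∑ u ∈ Ioc 0 y, 1 / ((u : ℝ) * √u) := Finset.sum_nonneg fun _ _ => by positivity
  have hz0 : 0 ≤ ∑ g ∈ Ioc 0 y, 1 / ((g : ℝ) ^ 2) := Finset.sum_nonneg fun _ _ => by positivity
  exact mul_le_mul hz (mul_le_mul hw hw hw0 W_nonneg) (mul_nonneg hw0 hw0) Z_nonneg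

theorem divisors_eq {m y : ℕ} (hm : m ∈ Ioc 0 y) : m.divisors = (Ioc 0 y).filter (· ∣ m) := by
  simp only [mem_Ioc] at hm
  ext d
  simp only [Nat.mem_divisors, mem_filter, mem_Ioc]
  constructor
  · rintro ⟨h1, h2⟩
    exact ⟨⟨Nat.pos_of_dvd_of_pos h1 hm.1, (Nat.le_of_dvd hm.1 h1).trans hm.2⟩, h1⟩
  · rintro ⟨⟨_, _⟩, h⟩
    exact ⟨h, by omega⟩

theorem pairs_sum (y : ℕ) :
    ∑ m ∈ Ioc 0 y, (∑ d ∈ m.divisors, 1 / √(d : ℝ)) ^ 2 ≤ Z * (W * W) * y := by
  classical
  have h1 : ∀ m ∈ Ioc 0 y, (∑ d ∈ m.divisors, 1 / √(d : ℝ)) ^ 2 =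
      ∑ p ∈ Ioc 0 y ×ˢ Ioc 0 y,
        if (p.1 ∣ m ∧ p.2 ∣ m) then (1 / √(p.1 : ℝ)) * (1 / √(p.2 : ℝ)) else 0 := by
    intro m hm
    rw [divisors_eq hm, sq, Finset.sum_mul_sum, ← Finset.sum_product', ← Finset.filter_product,
      Finset.sum_filter]
  rw [Finset.sum_congr rfl h1, Finset.sum_comm]
  have h2 : ∀ p ∈ Ioc 0 y ×ˢ Ioc 0 y,
      (∑ m ∈ Ioc 0 y, if (p.1 ∣ m ∧ p.2 ∣ m) then (1 / √(p.1 : ℝ)) * (1 / √(p.2 : ℝ)) else 0) ≤
      y * ((Nat.gcd p.1 p.2 : ℝ) / (((p.1 : ℝ) * √p.1) * ((p.2 : ℝ) * √p.2))) := by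
    rintro ⟨a, b⟩ hp
    simp only [mem_product, mem_Ioc] at hp
    obtain ⟨⟨ha0, hay⟩, ⟨hb0, hby⟩⟩ := hp
    simp only
    rw [← Finset.sum_filter, Finset.sum_const, nsmul_eq_mul]
    have e : (Ioc 0 y).filter (fun m => a ∣ m ∧ b ∣ m) = (Ioc 0 y).filter (fun m => Nat.lcm a b ∣ m) := by
      ext m; simp only [mem_filter, Nat.lcm_dvd_iff]
    rw [e, Nat.Ioc_filter_dvd_card_eq_div]
    have haR : (0 : ℝ) < a := by exact_mod_cast ha0
    have hbR : (0 : ℝ) < b := by exact_mod_cast hb0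
    have hsa : 0 < √(a : ℝ) := Real.sqrt_pos.2 haR
    have hsb : 0 < √(b : ℝ) := Real.sqrt_pos.2 hbR
    have hl : (Nat.gcd a b : ℝ) * (Nat.lcm a b : ℝ) = a * b := by
      exact_mod_cast Nat.gcd_mul_lcm a b
    have hlpos : (0 : ℝ) < Nat.lcm a b := by exact_mod_cast Nat.lcm_pos ha0 hb0
    have hdiv : ((y / Nat.lcm a b : ℕ) : ℝ) ≤ y / Nat.lcm a b := Nat.cast_div_le
    have e2 : (y : ℝ) * ((Nat.gcd a b : ℝ) / (((a : ℝ) * √a) * ((b : ℝ) * √b))) =
        (y / Nat.lcm a b) * ((1 / √(a : ℝ)) * (1 / √(b : ℝ))) := by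
      field_simp
      rw [mul_assoc, hl, mul_assoc]
    rw [e2]
    exact mul_le_mul_of_nonneg_right hdiv (by positivity)
  refine (Finset.sum_le_sum h2).trans ?_
  rw [← Finset.mul_sum]
  have := mul_le_mul_of_nonneg_left (key_sum y) (Nat.cast_nonneg (α := ℝ) y)
  linarith

/-! ### The counting bound -/

theorem count_bound (ε : ℝ) (hε : 0 < ε) (x : ℕ) (S : Finset ℕ)
    (hS : ∀ N ∈ S, 0 < N ∧ N ≤ x ∧ Representable N ∧ (f N : ℝ) ≤ ε * N) :
    (S.card : ℝ) ≤ ε * (Z * (W * W) * (ε * x)) := by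
  classical
  -- choose the divisor
  have hmem : ∀ N ∈ S, ∃ d ∈ (f N).divisors, 1 < d ∧
      N = ∑ e ∈ (f N).divisors with 1 < e ∧ e ≤ d, e := by
    intro N hN
    have h := Nat.sInf_mem (s := {n | N ∈ D n}) (hS N hN).2.2.1
    exact h
  choose! d hd hd1 hsum using hmem
  set y : ℕ := ⌊ε * x⌋₊ with hy
  set wt : ℕ × ℕ → ℝ := fun p => ε * ∑ e ∈ p.1.divisors with e ≤ p.2, (e : ℝ) / p.1 with hwt
  have hwt0 : ∀ p, 0 ≤ wt p := fun p => by
    simp only [hwt]; exact mul_nonneg hε.le (Finset.sum_nonneg fun _ _ => by positivity)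
  set φ : ℕ → ℕ × ℕ := fun N => (f N, d N) with hφ
  set T : Finset (ℕ × ℕ) := (Ioc 0 y).biUnion (fun m => m.divisors.image (fun d => (m, d))) with hT
  have hinj : Set.InjOn φ (S : Set ℕ) := by
    intro N hN N' hN' h
    simp only [hφ, Prod.mk.injEq] at h
    rw [hsum N hN, hsum N' hN', h.1, h.2]
  have hfpos : ∀ N ∈ S, 0 < f N := by
    intro N hN
    have := hd N hN
    exact Nat.pos_of_ne_zero (Nat.mem_divisors.1 this).2
  have hone : ∀ N ∈ S, (1 : ℝ) ≤ wt (φ N) := by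
    intro N hN
    have hfR : (0 : ℝ) < f N := by exact_mod_cast hfpos N hN
    have hle : (N : ℝ) ≤ ∑ e ∈ (f N).divisors with e ≤ d N, (e : ℝ) := by
      have : N ≤ ∑ e ∈ (f N).divisors with e ≤ d N, e := by
        conv_lhs => rw [hsum N hN]
        apply Finset.sum_le_sum_of_subset
        intro e he
        simp only [mem_filter] at he ⊢
        exact ⟨he.1, he.2.2⟩
      calc (N : ℝ) ≤ ((∑ e ∈ (f N).divisors with e ≤ d N, e : ℕ) : ℝ) := by exact_mod_cast this
        _ = _ := by push_cast; rfl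
    have h2 := (hS N hN).2.2.2
    simp only [hwt, hφ]
    rw [← Finset.sum_div, ← mul_div_assoc, le_div_iff₀ hfR, one_mul]
    exact h2.trans (mul_le_mul_of_nonneg_left hle hε.le)
  have hsub : S.image φ ⊆ T := by
    intro p hp
    obtain ⟨N, hN, rfl⟩ := Finset.mem_image.1 hp
    simp only [hT, hφ, mem_biUnion, Finset.mem_image, mem_Ioc]
    refine ⟨f N, ⟨hfpos N hN, ?_⟩, d N, hd N hN, rfl⟩
    rw [hy]
    apply Nat.le_floor
    refine (hS N hN).2.2.2.trans (mul_le_mul_of_nonneg_left ?_ hε.le)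
    exact_mod_cast (hS N hN).2.1
  calc (S.card : ℝ) = ∑ N ∈ S, (1 : ℝ) := by simp
    _ ≤ ∑ N ∈ S, wt (φ N) := Finset.sum_le_sum hone
    _ = ∑ p ∈ S.image φ, wt p := (Finset.sum_image (f := wt) hinj).symm
    _ ≤ ∑ p ∈ T, wt p := Finset.sum_le_sum_of_subset_of_nonneg hsub fun p _ _ => hwt0 p
    _ = ∑ m ∈ Ioc 0 y, ∑ c ∈ m.divisors, wt (m, c) := by
        rw [hT, Finset.sum_biUnion]
        · refine Finset.sum_congr rfl fun m _ => ?_
          rw [Finset.sum_image]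
          intro a _ b _ h
          simpa using h
        · intro m _ m' _ hne
          simp only [Function.onFun, Finset.disjoint_left, Finset.mem_image]
          rintro p ⟨a, _, rfl⟩ ⟨b, _, h⟩
          simp only [Prod.mk.injEq] at h
          exact hne h.1.symm
    _ ≤ ∑ m ∈ Ioc 0 y, ε * (∑ c ∈ m.divisors, 1 / √(c : ℝ)) ^ 2 := by
        refine Finset.sum_le_sum fun m hm => ?_
        simp only [mem_Ioc] at hm
        have hmR : (0 : ℝ) < m := by exact_mod_cast hm.1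
        simp only [hwt]
        rw [← Finset.mul_sum]
        refine mul_le_mul_of_nonneg_left ?_ hε.le
        have hrev : ∑ c ∈ m.divisors, 1 / √(c : ℝ) = ∑ c ∈ m.divisors, √((c : ℝ) / m) := by
          rw [← Nat.sum_div_divisors m (fun c => 1 / √(c : ℝ))]
          refine Finset.sum_congr rfl fun c hc => ?_
          have hcd : c ∣ m := Nat.dvd_of_mem_divisors hc
          have hcpos : 0 < c := Nat.pos_of_mem_divisors hc
          have hcR : (0 : ℝ) < c := by exact_mod_cast hcpos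
          rw [Nat.cast_div hcd (by positivity), ← Real.sqrt_one, ← Real.sqrt_div (by norm_num),
            one_div_div]
        rw [hrev, sq, Finset.sum_mul_sum]
        refine Finset.sum_le_sum fun c hc => ?_
        have hcpos : 0 < c := Nat.pos_of_mem_divisors hc
        have hcR : (0 : ℝ) < c := by exact_mod_cast hcpos
        calc ∑ e ∈ m.divisors with e ≤ c, (e : ℝ) / m
            ≤ ∑ e ∈ m.divisors with e ≤ c, √((c : ℝ) / m) * √((e : ℝ) / m) := by
              refine Finset.sum_le_sum fun e he => ?_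
              simp only [mem_filter] at he
              have hepos : 0 < e := Nat.pos_of_mem_divisors he.1
              have heR : (0 : ℝ) < e := by exact_mod_cast hepos
              have hec : (e : ℝ) ≤ c := by exact_mod_cast he.2
              have h1 : (e : ℝ) / m = √((e : ℝ) / m) * √((e : ℝ) / m) :=
                (Real.mul_self_sqrt (by positivity)).symm
              conv_lhs => rw [h1]
              refine mul_le_mul_of_nonneg_right ?_ (Real.sqrt_nonneg _)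
              exact Real.sqrt_le_sqrt (by gcongr)
          _ ≤ ∑ e ∈ m.divisors, √((c : ℝ) / m) * √((e : ℝ) / m) :=
              Finset.sum_le_sum_of_subset_of_nonneg (Finset.filter_subset _ _)
                fun _ _ _ => by positivity
    _ = ε * ∑ m ∈ Ioc 0 y, (∑ c ∈ m.divisors, 1 / √(c : ℝ)) ^ 2 := by rw [Finset.mul_sum]
    _ ≤ ε * (Z * (W * W) * y) := mul_le_mul_of_nonneg_left (pairs_sum y) hε.le
    _ ≤ ε * (Z * (W * W) * (ε * x)) := by
        refine mul_le_mul_of_nonneg_left ?_ hε.le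
        refine mul_le_mul_of_nonneg_left ?_
          (mul_nonneg Z_nonneg (mul_nonneg W_nonneg W_nonneg))
        exact Nat.floor_le (by positivity)

/-- **Disproof of Q1.**  It is not true that `f N = o(N)` for almost all `N`: there is no set `E` of
natural density zero such that for every `ε > 0` all sufficiently large `N ∉ E` are representable
with `f N ≤ ε N`. -/
theorem result :
    ¬ ∃ E : Set ℕ, DensityZero E ∧
      ∀ ε : ℝ, 0 < ε → ∃ N₀ : ℕ, ∀ N : ℕ, N₀ ≤ N → N ∉ E →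
        Representable N ∧ (f N : ℝ) ≤ ε * N := by
  classical
  rintro ⟨E, hE, h⟩
  set C : ℝ := Z * (W * W) with hC
  have hC0 : 0 ≤ C := mul_nonneg Z_nonneg (mul_nonneg W_nonneg W_nonneg)
  -- choose `ε` with `C ε² ≤ 1/4`
  set ε : ℝ := 1 / (2 * (C + 1)) with hε
  have hε0 : 0 < ε := by positivity
  have hCε : ε * (C * ε) ≤ 1 / 4 := by
    rw [hε]
    have h1 : (0 : ℝ) < C + 1 := by linarith
    rw [show 1 / (2 * (C + 1)) * (C * (1 / (2 * (C + 1)))) = C / (4 * (C + 1) ^ 2) by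
      field_simp; ring]
    rw [div_le_div_iff₀ (by positivity) (by norm_num)]
    nlinarith [sq_nonneg (C)]
  obtain ⟨N₀, hN₀⟩ := h ε hε0
  -- `E` has few elements up to `x`, for large `x`
  have hev : ∀ᶠ x : ℕ in atTop, ((E ∩ Set.Icc 1 x).ncard : ℝ) / x < 1 / 4 :=
    hE.eventually (gt_mem_nhds (by norm_num))
  obtain ⟨x, hx1, hx2⟩ := (hev.and (eventually_ge_atTop (4 * N₀ + 4))).exists
  have hxR : (0 : ℝ) < x := by
    have : 0 < x := by omega
    exact_mod_cast this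
  rw [div_lt_iff₀ hxR] at hx1
  -- decompose `Icc 1 x`
  set S : Finset ℕ := (Finset.Icc 1 x).filter (fun N => N₀ ≤ N ∧ N ∉ E) with hS
  have hScard : (S.card : ℝ) ≤ ε * (C * (ε * x)) := by
    refine count_bound ε hε0 x S fun N hN => ?_
    simp only [hS, mem_filter, Finset.mem_Icc] at hN
    exact ⟨by omega, hN.1.2, hN₀ N hN.2.1 hN.2.2⟩
  have hcover : Finset.Icc 1 x ⊆ S ∪ (Finset.range N₀ ∪ (Finset.Icc 1 x).filter (· ∈ E)) := by
    intro N hN
    simp only [hS, mem_union, mem_filter, mem_range]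
    by_cases h1 : N < N₀
    · right; left; exact h1
    · by_cases h2 : N ∈ E
      · right; right; exact ⟨hN, h2⟩
      · left; exact ⟨hN, by omega, h2⟩
  have hEcard : ((E ∩ Set.Icc 1 x).ncard : ℝ) = (((Finset.Icc 1 x).filter (· ∈ E)).card : ℝ) := by
    congr 1
    rw [← Set.ncard_coe_finset]
    congr 1
    ext N
    simp only [Set.mem_inter_iff, Set.mem_Icc, coe_filter, Finset.mem_Icc, Set.mem_ofPred_eq]
    tauto
  have hcard : (x : ℝ) ≤ S.card + (N₀ + ((Finset.Icc 1 x).filter (· ∈ E)).card) := by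
    have h1 := (Finset.card_le_card hcover).trans (Finset.card_union_le _ _)
    have h2 := Finset.card_union_le (Finset.range N₀) ((Finset.Icc 1 x).filter (· ∈ E))
    simp only [Nat.card_Icc, Finset.card_range] at h1 h2
    have h3 : x ≤ S.card + (N₀ + ((Finset.Icc 1 x).filter (· ∈ E)).card) := by omega
    exact_mod_cast h3
  rw [← hEcard] at hcard
  have hx3 : (4 : ℝ) * N₀ + 4 ≤ x := by exact_mod_cast hx2
  have h5 : ε * (C * (ε * x)) ≤ 1 / 4 * x := by
    have := mul_le_mul_of_nonneg_right hCε hxR.le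
    nlinarith
  linarith

end Pool.Agent.Results.MP_d49c4f_nt.AlmostAll
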