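import Mathlib
import Pool.Agent.Helper954.InitSum

open Finset Filter Topology

namespace Pool.Agent.Results.MP_d49c4f_nt.AmongRepresentable

/-- `D n` is the set of nonempty initial sums of the increasing sequence of the divisors of `n`
that exceed `1`: for each divisor `d > 1` of `n`, the sum of all divisors `e` of `n` with
`1 < e ≤ d`.  In particular `D 0 = D 1 = ∅`. -/
def D (n : ℕ) : Set ℕ :=
  {N | ∃ d ∈ n.divisors, 1 < d ∧ N = ∑ e ∈ n.divisors with 1 < e ∧ e ≤ d, e}

/-- `N` is representable if it lies in `D n` for some `n`. -/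
def Representable (N : ℕ) : Prop := ∃ n, N ∈ D n

/-- The least `n` with `N ∈ D n` (for representable `N`). -/
noncomputable def f (N : ℕ) : ℕ := sInf {n | N ∈ D n}

/-- The set `E` of natural numbers has natural density zero. -/
def DensityZero (E : Set ℕ) : Prop :=
  Tendsto (fun x : ℕ => ((E ∩ Set.Icc 1 x).ncard : ℝ) / x) atTop (𝓝 0)

/-! ### Sanity checks for the definition of `D` -/

theorem D_zero : D 0 = ∅ := by
  ext N; simp [D]

theorem D_one : D 1 = ∅ := by
  ext N; simp [D]

theorem D_four : D 4 = {2, 6} := by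
  have h : (4 : ℕ).divisors = {1, 2, 4} := by decide
  ext N
  simp only [D, h, Set.mem_ofPred_eq, Set.mem_insert_iff, Set.mem_singleton_iff]
  constructor
  · rintro ⟨d, hd, hd1, rfl⟩
    simp only [Finset.mem_insert, Finset.mem_singleton] at hd
    rcases hd with rfl | rfl | rfl
    · omega
    · left; decide
    · right; decide
  · rintro (rfl | rfl)
    · exact ⟨2, by simp, by norm_num, by decide⟩
    · exact ⟨4, by simp, by norm_num, by decide⟩

/-- all sufficiently large `N` are representable -/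
theorem large_representable : ∃ N₀, ∀ N ≥ N₀, Representable N := by
  obtain ⟨N₀, h⟩ := Pool.Agent.Helper954.InitSum.large_init
  refine ⟨N₀, fun N hN => ?_⟩
  obtain ⟨m, d, hd, hd1, hs⟩ := h (N + 1) (by omega)
  refine ⟨m, d, hd, hd1, ?_⟩
  have := Pool.Agent.Helper954.InitSum.sum_gt_one m d hd
  omega

/-- **Strong disproof of Q1.**  Even if one only looks at representable `N`, it is not true that
`f N = o(N)` for almost all `N`: there is no set `E` of natural density zero such that for every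
`ε > 0` all sufficiently large representable `N ∉ E` satisfy `f N ≤ ε N`. -/
theorem result :
    ¬ ∃ E : Set ℕ, DensityZero E ∧
      ∀ ε : ℝ, 0 < ε → ∃ N₀ : ℕ, ∀ N : ℕ, N₀ ≤ N → N ∉ E → Representable N →
        (f N : ℝ) ≤ ε * N := by
  classical
  rintro ⟨E, hE, h⟩
  obtain ⟨M₀, hM₀⟩ := large_representable
  obtain ⟨ε, hε, X, hX⟩ := Pool.Agent.Helper954.InitSum.density
    (fun m d => ∑ e ∈ m.divisors with 1 < e ∧ e ≤ d, e) (fun d => 1 < d)
    (fun m d => by
      apply Finset.sum_le_sum_of_subset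
      intro e he
      simp only [mem_filter] at he ⊢
      exact ⟨he.1, he.2.2⟩)
    ⟨M₀, fun N hN => by
      obtain ⟨m, d, hd, hd1, h⟩ := hM₀ N hN
      exact ⟨m, d, hd, hd1, h⟩⟩ (1 / 4) (by norm_num)
  obtain ⟨N₀, hN₀⟩ := h ε hε
  have hev := (hE.eventually (gt_mem_nhds (by norm_num : (0 : ℝ) < 1 / 4))).and
    (Filter.eventually_ge_atTop (max X (4 * N₀ + 4)))
  obtain ⟨x, hx1, hx2⟩ := hev.exists
  have hxN : 4 * N₀ + 4 ≤ x := (le_max_right _ _).trans hx2
  have hx0 : (0 : ℝ) < x := by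
    have : 1 ≤ x := by omega
    exact_mod_cast this
  rw [div_lt_iff₀ hx0] at hx1
  have hb := hX x ((le_max_left _ _).trans hx2)
  have hsub : ((Ioc 0 x).filter (fun N => (∃ m : ℕ, ∃ d ∈ m.divisors, 1 < d ∧
      N = ∑ e ∈ m.divisors with 1 < e ∧ e ≤ d, e) ∧
        ε * (N : ℝ) < (sInf {m : ℕ | ∃ d ∈ m.divisors, 1 < d ∧
          N = ∑ e ∈ m.divisors with 1 < e ∧ e ≤ d, e} : ℕ))) ⊆
      range N₀ ∪ (Finset.Icc 1 x).filter (· ∈ E) := by
    intro N hN
    simp only [mem_filter, mem_Ioc] at hN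
    simp only [mem_union, mem_range, mem_filter, Finset.mem_Icc]
    by_contra hcon
    push Not at hcon
    have hNE : N ∉ E := hcon.2 ⟨hN.1.1, hN.1.2⟩
    have h1 := hN₀ N hcon.1 hNE hN.2.1
    exact absurd hN.2.2 (not_lt.2 h1)
  have hcard := (Finset.card_le_card hsub).trans (Finset.card_union_le _ _)
  rw [Finset.card_range] at hcard
  have hEcard : ((E ∩ Set.Icc 1 x).ncard : ℝ) = (((Finset.Icc 1 x).filter (· ∈ E)).card : ℝ) := by
    congr 1
    rw [← Set.ncard_coe_finset]
    congr 1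
    ext N
    simp only [Set.mem_inter_iff, Set.mem_Icc, coe_filter, Finset.mem_Icc, Set.mem_ofPred_eq]
    tauto
  rw [hEcard] at hx1
  have h3 : (1 - 1 / 4 : ℝ) * x ≤ N₀ + ((Finset.Icc 1 x).filter (· ∈ E)).card :=
    hb.trans (by exact_mod_cast hcard)
  have h4 : (4 : ℝ) * N₀ + 4 ≤ x := by exact_mod_cast hxN
  linarith

end Pool.Agent.Results.MP_d49c4f_nt.AmongRepresentable
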